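import Pool.Agent.Lib.MP_c0175c_an.Ch.VM

set_option autoImplicit false

open Set Filter Topology InnerProductSpace

namespace Pool.Agent.Lib.MP_c0175c_an.Ch

/-- Coordinates for a sequence in an inner product space. -/
theorem exists_coord {H : Type*} [NormedAddCommGroup H] [InnerProductSpace ℝ H] (g : ℕ → H) :
    ∃ c : H → ℕ → ℝ, (∀ v N, ∑ i ∈ Finset.range N, c v i ^ 2 ≤ ‖v‖ ^ 2) ∧
      (∀ n i, n + 1 ≤ i → c (g n) i = 0) ∧
      ∀ v n, inner ℝ v (g n) = ∑ i ∈ Finset.range (n + 1), c v i * c (g n) i := by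
  let e : ℕ → H := gramSchmidtNormed ℝ g
  have o1 : ∀ i j, i ≠ j → inner ℝ (e i) (e j) = 0 := fun i j hij => by
    simp only [e, gramSchmidtNormed, inner_smul_left, inner_smul_right,
      gramSchmidt_orthogonal ℝ g hij, mul_zero]
  have o2 : ∀ i v, inner ℝ v (e i) * inner ℝ (e i) (e i) = inner ℝ v (e i) := fun i v => by
    by_cases h : e i = 0
    · simp [h]
    · rw [real_inner_self_eq_norm_sq, gramSchmidtNormed_unit_length' h]
      simp
  refine ⟨fun v i => inner ℝ v (e i), fun v N => ?_, fun n i hi => ?_, fun v n => ?_⟩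
  · set p : H := ∑ i ∈ Finset.range N, (inner ℝ v (e i) : ℝ) • e i with hp
    have a1 : inner ℝ v p = ∑ i ∈ Finset.range N, (inner ℝ v (e i) : ℝ) ^ 2 := by
      rw [hp, inner_sum]
      exact Finset.sum_congr rfl fun i _ => by rw [inner_smul_right, sq]
    have a2 : inner ℝ p p = ∑ i ∈ Finset.range N, (inner ℝ v (e i) : ℝ) ^ 2 := by
      rw [hp, inner_sum]
      refine Finset.sum_congr rfl fun i hi => ?_
      rw [inner_smul_right, sum_inner, Finset.sum_eq_single i (fun j _ hj => by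
        rw [inner_smul_left, o1 j i hj, mul_zero]) fun h => (h hi).elim, inner_smul_left, sq]
      exact congrArg _ (o2 i v)
    have a3 := norm_sub_sq_real v p
    rw [← real_inner_self_eq_norm_sq p, a1, a2] at a3
    nlinarith [sq_nonneg ‖v - p‖]
  · show inner ℝ (g n) (e i) = 0
    rw [real_inner_comm]
    simp only [e, gramSchmidtNormed, inner_smul_left, gramSchmidt_inv_triangular ℝ g hi, mul_zero]
  · have hs : g n ∈ Submodule.span ℝ (e '' Iic n) := by
      rw [span_gramSchmidtNormed]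
      exact mem_span_gramSchmidt ℝ g le_rfl
    show inner ℝ v (g n) = ∑ i ∈ Finset.range (n + 1), inner ℝ v (e i) * inner ℝ (g n) (e i)
    generalize g n = w at hs
    induction hs using Submodule.span_induction with
    | mem x hx =>
      obtain ⟨j, hj, rfl⟩ := hx
      rw [Finset.sum_eq_single j (fun i _ hi => by rw [o1 j i hi.symm, mul_zero])
        fun h => (h (Finset.mem_range.2 (Nat.lt_succ_of_le hj))).elim, o2]
    | zero => simp
    | add x y _ _ hx hy =>
      simp only [inner_add_left, inner_add_right, mul_add, Finset.sum_add_distrib, hx, hy]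
    | smul r x _ hx =>
      rw [inner_smul_right, hx, Finset.mul_sum]
      refine Finset.sum_congr rfl fun i _ => ?_
      rw [real_inner_smul_left]
      ring

theorem cs (t : Finset ℕ) (u v : ℕ → ℝ) {A B : ℝ} (hA : 0 ≤ A) (hB : 0 ≤ B)
    (hu : ∑ i ∈ t, u i ^ 2 ≤ A ^ 2) (hv : ∑ i ∈ t, v i ^ 2 ≤ B ^ 2) :
    |∑ i ∈ t, u i * v i| ≤ A * B := by
  refine abs_le.2 (abs_le_of_sq_le_sq' ((Finset.sum_mul_sq_le_sq_mul_sq t u v).trans ?_)
    (mul_nonneg hA hB))
  rw [mul_pow]
  exact mul_le_mul hu hv (Finset.sum_nonneg fun i _ => sq_nonneg _) (sq_nonneg _)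

theorem exists_tail {b : ℕ → ℝ} {B δ : ℝ} (hb : ∀ N, ∑ i ∈ Finset.range N, b i ^ 2 ≤ B)
    (hδ : 0 < δ) (n : ℕ) :
    ∃ N, n ≤ N ∧ ∀ t : Finset ℕ, (∀ i ∈ t, N ≤ i) → ∑ i ∈ t, b i ^ 2 ≤ δ ^ 2 := by
  have hs : Summable fun i => b i ^ 2 := summable_of_sum_range_le (fun i => sq_nonneg _) hb
  obtain ⟨T, hT⟩ := hs.vanishing (Iic_mem_nhds (show (0 : ℝ) < δ ^ 2 by positivity))
  obtain ⟨k, hk⟩ := T.bddAbove
  refine ⟨max n (k + 1), le_max_left _ _, fun t ht => hT t (Finset.disjoint_left.2 fun i hi h => ?_)⟩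
  have a1 : i ≤ k := hk h
  have a2 := (le_max_right _ _).trans (ht i hi)
  omega

/-- The coordinates can be made to vanish in the limit. -/
theorem veech (K : Set C0) (c : C0 → ℕ → ℝ) (a : ℕ → ℕ → ℝ) {M ε : ℝ} (hM : 0 < M) (hε : 0 < ε)
    (hc : ∀ x ∈ K, ∀ N, ∑ i ∈ Finset.range N, c x i ^ 2 ≤ 1)
    (ha : ∀ n N, ∑ i ∈ Finset.range N, a n i ^ 2 ≤ M ^ 2) (h0 : ∀ n i, n + 1 ≤ i → a n i = 0)
    (hx : ∀ x ∈ K, ∀ n, |x n - ∑ i ∈ Finset.range (n + 1), c x i * a n i| ≤ ε) :
    ∃ (a' : ℕ → ℕ → ℝ) (l : ℕ → ℕ) (N : C0 → ℕ),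
      (∀ n R, ∑ i ∈ Finset.range R, a' n i ^ 2 ≤ (2 * M) ^ 2) ∧ (∀ n i, l n ≤ i → a' n i = 0) ∧
      (∀ i, Tendsto (fun n => a' n i) atTop (𝓝 0)) ∧
      ∀ x ∈ K, ∀ n, |x n - ∑ i ∈ Finset.range (N x), c x i * a' n i| ≤ 5 * ε := by
  classical
  choose! N _ hN using fun x (h : x ∈ K) => exists_tail (hc x h) (δ := ε / M) (by positivity) 0
  have sub : ∀ {u : ℕ → ℝ} {B : ℝ}, (∀ R, ∑ i ∈ Finset.range R, u i ^ 2 ≤ B) →
      ∀ t : Finset ℕ, ∑ i ∈ t, u i ^ 2 ≤ B := fun {u B} h t => by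
    obtain ⟨R, hR⟩ := t.exists_nat_subset_range
    exact (Finset.sum_le_sum_of_subset_of_nonneg hR fun i _ _ => sq_nonneg _).trans (h R)
  have h1 : ∀ x ∈ K, ∀ n, |x n - ∑ i ∈ Finset.range (N x), c x i * a n i| ≤ 2 * ε := by
    intro x hK n
    set R := max (n + 1) (N x) with hR
    have e1 : ∑ i ∈ Finset.range (n + 1), c x i * a n i = ∑ i ∈ Finset.range R, c x i * a n i :=
      Finset.sum_subset (Finset.range_subset_range.2 (le_max_left _ _)) fun i _ hi => by
        rw [h0 n i (not_lt.1 fun k => hi (Finset.mem_range.2 k)), mul_zero]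
    have e2 := Finset.sum_range_add_sum_Ico (fun i => c x i * a n i) (le_max_right (n + 1) (N x))
    have e3 := cs (Finset.Ico (N x) R) (c x) (a n) (by positivity : 0 ≤ ε / M) hM.le
      (hN x hK _ fun i hi => (Finset.mem_Ico.1 hi).1) (sub (ha n) _)
    rw [div_mul_cancel₀ _ hM.ne'] at e3
    have b1 := abs_le.1 (hx x hK n)
    have b2 := abs_le.1 e3
    rw [abs_le]
    constructor <;> linarith [b1.1, b1.2, b2.1, b2.2]
  let C : Set (ℕ → ℝ) := {b | (∀ R, ∑ i ∈ Finset.range R, b i ^ 2 ≤ M ^ 2) ∧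
    ∀ x ∈ K, |∑ i ∈ Finset.range (N x), c x i * b i| ≤ 2 * ε}
  let P : ℕ → ℕ → Prop := fun n k => ∃ b ∈ C, ∀ i < k, |a n i - b i| ≤ 1 / ((k : ℝ) + 1)
  have p0 : ∀ n, P n 0 := fun n =>
    ⟨0, ⟨fun R => by simpa using sq_nonneg M, fun x _ => by simpa using hε.le⟩,
      fun i hi => absurd hi (Nat.not_lt_zero i)⟩
  have p1 : ∀ k, ∀ᶠ n in atTop, P n k := by
    intro k
    by_contra hcon
    obtain ⟨φ, hφ, hn⟩ := extraction_of_frequently_atTop (not_eventually.1 hcon)
    have cp : IsCompact (Set.pi univ fun _ : ℕ => Icc (-M) M) :=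
      isCompact_univ_pi fun _ => isCompact_Icc
    obtain ⟨b, -, ψ, hψ, hb⟩ := cp.tendsto_subseq (x := fun j => a (φ j)) fun j i _ =>
      abs_le_of_sq_le_sq' (by simpa using sub (ha (φ j)) {i}) hM.le
    have hb' : ∀ i, Tendsto (fun j => a (φ (ψ j)) i) atTop (𝓝 (b i)) := tendsto_pi_nhds.1 hb
    have bC : b ∈ C := by
      refine ⟨fun R => le_of_tendsto' (tendsto_finsetSum _ fun i _ => (hb' i).pow 2)
        fun j => ha _ R, fun x hK => ?_⟩
      have t1 := ((tends0 x).comp (hφ.comp hψ).tendsto_atTop).sub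
        (tendsto_finsetSum (Finset.range (N x)) fun i _ => (hb' i).const_mul (c x i))
      have t2 := le_of_tendsto' t1.abs fun j => h1 x hK _
      rwa [zero_sub, abs_neg] at t2
    have t3 : ∀ᶠ j in atTop, ∀ i ∈ Finset.range k, |a (φ (ψ j)) i - b i| ≤ 1 / ((k : ℝ) + 1) := by
      rw [Finset.eventually_all]
      intro i _
      filter_upwards [Metric.tendsto_nhds.1 (hb' i) (1 / ((k : ℝ) + 1)) (by positivity)] with j hj
      exact hj.le
    obtain ⟨j, hj⟩ := t3.exists
    exact hn (ψ j) ⟨b, bC, fun i hi => hj i (Finset.mem_range.2 hi)⟩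
  choose b bC hb using fun n => Nat.findGreatest_spec (P := P n) (Nat.zero_le n) (p0 n)
  choose l hl1 hl2 using fun n => exists_tail (bC n).1 hε (n + 1)
  let b' : ℕ → ℕ → ℝ := fun n i => if i < l n then b n i else 0
  refine ⟨fun n i => a n i - b' n i, l, N, fun n R => ?_, fun n i hi => ?_, fun i => ?_,
    fun x hK n => ?_⟩
  · have b1 : ∑ i ∈ Finset.range R, (a n i - b' n i) ^ 2 ≤
        ∑ i ∈ Finset.range R, (2 * a n i ^ 2 + 2 * b n i ^ 2) :=
      Finset.sum_le_sum fun i _ => by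
        simp only [b']
        split_ifs <;> nlinarith [sq_nonneg (a n i + b n i), sq_nonneg (a n i), sq_nonneg (b n i)]
    rw [Finset.sum_add_distrib, ← Finset.mul_sum, ← Finset.mul_sum] at b1
    nlinarith [ha n R, (bC n).1 R]
  · simp [b', not_lt.2 hi, h0 n i ((hl1 n).trans hi)]
  · rw [Metric.tendsto_nhds]
    intro δ hδ
    obtain ⟨k0, hk0⟩ := exists_nat_one_div_lt hδ
    filter_upwards [p1 (max k0 (i + 1)), eventually_ge_atTop (max k0 (i + 1))] with n hn hn'
    have k1 := Nat.le_findGreatest hn' hn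
    have k2 : i < Nat.findGreatest (P n) n := lt_of_lt_of_le (le_max_right k0 (i + 1)) k1
    have k3 : i < l n := by
      have := hl1 n
      have := le_max_right k0 (i + 1)
      omega
    have k4 : (k0 : ℝ) ≤ Nat.findGreatest (P n) n := by
      exact_mod_cast (le_max_left _ _).trans k1
    rw [Real.dist_eq, sub_zero]
    simp only [b', k3, if_true]
    refine lt_of_le_of_lt ((hb n i k2).trans ?_) hk0
    exact one_div_le_one_div_of_le (by positivity) (by linarith)
  · have e1 : ∑ i ∈ Finset.range (N x), c x i * (a n i - b' n i) =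
        ∑ i ∈ Finset.range (N x), c x i * a n i - ∑ i ∈ Finset.range (N x), c x i * b n i +
          ∑ i ∈ (Finset.range (N x)).filter (fun i => l n ≤ i), c x i * b n i := by
      rw [Finset.sum_filter, ← Finset.sum_sub_distrib, ← Finset.sum_add_distrib]
      refine Finset.sum_congr rfl fun i _ => ?_
      by_cases k : i < l n
      · simp only [b', k, not_le.2 k, if_true, if_false]
        ring
      · simp only [b', k, not_lt.1 k, if_true, if_false]
        ring
    have e2 := cs ((Finset.range (N x)).filter fun i => l n ≤ i) (c x) (b n) zero_le_one hε.le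
      (by simpa using sub (hc x hK) _) (hl2 n _ fun i hi => (Finset.mem_filter.1 hi).2)
    have b1 := abs_le.1 (h1 x hK n)
    have b2 := abs_le.1 ((bC n).2 x hK)
    have b3 := abs_le.1 e2
    show |x n - ∑ i ∈ Finset.range (N x), c x i * (a n i - b' n i)| ≤ 5 * ε
    rw [e1, abs_le]
    constructor <;> linarith [b1.1, b1.2, b2.1, b2.2, b3.1, b3.2]

end Pool.Agent.Lib.MP_c0175c_an.Ch
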