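import Pool.Agent.Lib.MP_c0175c_an.Ch.Coord

set_option autoImplicit false

open MeasureTheory Set Filter Topology
open scoped ENNReal

namespace Pool.Agent.Lib.MP_c0175c_an.Ch

universe u

/-- The coordinates of the members of `K` are uniformly close to bounded inner products. -/
def Ap (K : Set C0) : Prop :=
  ∀ ε : ℝ, 0 < ε → ∃ (H : Type u) (_ : NormedAddCommGroup H) (_ : InnerProductSpace ℝ H) (M : ℝ)
    (h : C0 → H) (g : ℕ → H), 0 < M ∧ (∀ x ∈ K, ‖h x‖ ≤ 1) ∧ (∀ n, ‖g n‖ ≤ M) ∧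
      ∀ x ∈ K, ∀ n, |x n - inner ℝ (h x) (g n)| ≤ ε

theorem Ap.mono {K L : Set C0} (h : Ap.{u} L) (hs : K ⊆ L) : Ap.{u} K := fun ε hε => by
  obtain ⟨H, i1, i2, M, h, g, a, b, c, d⟩ := h ε hε
  exact ⟨H, i1, i2, M, h, g, a, fun x hx => b x (hs hx), c, fun x hx => d x (hs hx)⟩

theorem Ap.sub {K L : Set C0} (hK : Ap.{u} K) (hL : Ap.{u} L) :
    Ap.{u} {z | ∃ x ∈ K, ∃ y ∈ L, z = x - y} := fun ε hε => by
  obtain ⟨H, i1, i2, M, h, g, a, b, c, d⟩ := hK (ε / 2) (by positivity)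
  obtain ⟨H', j1, j2, M', h', g', a', b', c', d'⟩ := hL (ε / 2) (by positivity)
  have hz : ∀ z ∈ {z : C0 | ∃ x ∈ K, ∃ y ∈ L, z = x - y}, ∃ x y, x ∈ K ∧ y ∈ L ∧ z = x - y :=
    fun z ⟨x, hx, y, hy, e⟩ => ⟨x, y, hx, hy, e⟩
  choose! X Y hX hY hXY using hz
  have nb : ∀ (p : H) (q : H'), ‖(WithLp.toLp 2 (p, q) : WithLp 2 (H × H'))‖ ≤ ‖p‖ + ‖q‖ := by
    intro p q
    refine abs_le_of_sq_le_sq' ?_ (by positivity) |>.2
    rw [WithLp.prod_norm_sq_eq_of_L2]
    show ‖p‖ ^ 2 + ‖q‖ ^ 2 ≤ _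
    nlinarith [mul_nonneg (norm_nonneg p) (norm_nonneg q)]
  refine ⟨WithLp 2 (H × H'), inferInstance, inferInstance, 2 * M + 2 * M',
    fun z => WithLp.toLp 2 ((1 / 2 : ℝ) • h (X z), (1 / 2 : ℝ) • h' (Y z)),
    fun n => WithLp.toLp 2 ((2 : ℝ) • g n, (-2 : ℝ) • g' n), by positivity, fun z hz => ?_,
    fun n => ?_, fun z hz n => ?_⟩
  · refine (nb _ _).trans ?_
    rw [norm_smul, norm_smul, Real.norm_eq_abs, abs_of_pos (by norm_num : (0 : ℝ) < 1 / 2)]
    linarith [b _ (hX z hz), b' _ (hY z hz)]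
  · refine (nb _ _).trans ?_
    rw [norm_smul, norm_smul, Real.norm_eq_abs, Real.norm_eq_abs, abs_neg, abs_two]
    linarith [c n, c' n]
  · rw [WithLp.prod_inner_apply]
    show |z n - (inner ℝ ((1 / 2 : ℝ) • h (X z)) ((2 : ℝ) • g n) +
      inner ℝ ((1 / 2 : ℝ) • h' (Y z)) ((-2 : ℝ) • g' n))| ≤ ε
    rw [real_inner_smul_left, real_inner_smul_left, real_inner_smul_right, real_inner_smul_right]
    have e : z n = X z n - Y z n := by
      conv_lhs => rw [hXY z hz]
      rfl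
    have b1 := abs_le.1 (d _ (hX z hz) n)
    have b2 := abs_le.1 (d' _ (hY z hz) n)
    rw [e, abs_le]
    constructor <;> linarith [b1.1, b1.2, b2.1, b2.2]

/-- Ranges of vector measures have the approximation property. -/
theorem ap_range {α : Type u} [MeasurableSpace α] (v : VectorMeasure α C0) :
    Ap.{u} (range fun A : Set α => v A) := by
  intro ε hε
  let s : ℕ → SignedMeasure α := fun n => v.mapRange (Blocks.ev n) (Blocks.continuous_ev n)
  have hle : ∀ n A, |s n A| ≤ ‖v A‖ := fun n A => Blocks.abs_apply_le (v A) n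
  have hzero : ∀ A, (∀ n, s n A = 0) → v A = 0 := fun A hA => by
    ext n
    exact hA n
  obtain ⟨μ, hμfin, hac, -⟩ :=
    exists_isFiniteMeasure_absolutelyContinuous (Measure.sum fun n => (s n).totalVariation)
  have hs0 : ∀ n A, MeasurableSet A → μ A = 0 → s n A = 0 := by
    intro n A hA h
    have h1 : (Measure.sum fun n => (s n).totalVariation) A = 0 := hac h
    have h2 : (s n).totalVariation A = 0 :=
      le_antisymm (le_trans (Measure.le_sum (fun n => (s n).totalVariation) n A) h1.le) bot_le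
    have h3 := (s n).norm_le_totalVariation A
    rw [measureReal_def, h2] at h3
    simpa using h3
  have hv0 : ∀ A, MeasurableSet A → μ A = 0 → v A = 0 :=
    fun A hA h => hzero A fun n => hs0 n A hA h
  obtain ⟨δ, hδ0, hδ⟩ := eps_delta v μ hv0 hε
  let f : ℕ → α → ℝ := fun n => (s n).rnDeriv μ
  have hfm : ∀ n, Measurable (f n) := fun n => SignedMeasure.measurable_rnDeriv _ _
  have hfi : ∀ n, Integrable (f n) μ := fun n => SignedMeasure.integrable_rnDeriv _ _
  have hfs : ∀ n A, MeasurableSet A → ∫ x in A, f n x ∂μ = s n A := by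
    intro n A hA
    have h1 : s n ≪ᵥ μ.toENNRealVectorMeasure := by
      apply VectorMeasure.AbsolutelyContinuous.mk
      intro B hB h
      rw [Measure.toENNRealVectorMeasure_apply_measurable hB] at h
      exact hs0 n B hB h
    have h2 := SignedMeasure.withDensityᵥ_rnDeriv_eq (s n) μ h1
    rw [← withDensityᵥ_apply (hfi n) hA, h2]
  set C : ℝ := (v.bound : ℝ) with hC
  have hC0 : 0 ≤ C := NNReal.coe_nonneg _
  have hsC : ∀ n A, |s n A| ≤ C := fun n A => (hle n A).trans VectorMeasure.norm_apply_le_bound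
  have hL1 : ∀ n, ∫ x, |f n x| ∂μ ≤ 2 * C := by
    intro n
    have hP : MeasurableSet {x | 0 ≤ f n x} := measurableSet_le measurable_const (hfm n)
    rw [← integral_add_compl hP (hfi n).abs]
    have h1 : ∫ x in {x | 0 ≤ f n x}, |f n x| ∂μ = ∫ x in {x | 0 ≤ f n x}, f n x ∂μ :=
      setIntegral_congr_fun hP fun x hx => abs_of_nonneg hx
    have h2 : ∫ x in {x | 0 ≤ f n x}ᶜ, |f n x| ∂μ = - ∫ x in {x | 0 ≤ f n x}ᶜ, f n x ∂μ := by
      rw [← integral_neg]
      exact setIntegral_congr_fun hP.compl fun x hx => abs_of_neg (not_le.1 hx)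
    rw [h1, h2, hfs n _ hP, hfs n _ hP.compl]
    have h3 := abs_le.1 (hsC n {x | 0 ≤ f n x})
    have h4 := abs_le.1 (hsC n {x | 0 ≤ f n x}ᶜ)
    linarith [h3.2, h4.1]
  obtain ⟨M, hM0, hM⟩ : ∃ M : ℝ, 0 < M ∧ ∀ n, μ {x | M ≤ |f n x|} < δ := by
    obtain ⟨d, hd0, hd⟩ : ∃ d : ℝ, 0 < d ∧ ENNReal.ofReal d < δ := by
      obtain ⟨r, hr0, hr⟩ := ENNReal.lt_iff_exists_nnreal_btwn.1 hδ0
      refine ⟨r, by exact_mod_cast hr0, by simpa using hr⟩
    refine ⟨(2 * C + 1) / d, by positivity, fun n => ?_⟩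
    have h1 := mul_meas_ge_le_integral_of_nonneg (μ := μ) (f := fun x => |f n x|)
      (Eventually.of_forall fun x => abs_nonneg _) (hfi n).abs ((2 * C + 1) / d)
    have h2 : μ.real {x | (2 * C + 1) / d ≤ |f n x|} ≤ d := by
      have h3 := h1.trans (hL1 n)
      rw [div_mul_eq_mul_div, div_le_iff₀ hd0] at h3
      by_contra h4
      push Not at h4
      nlinarith
    refine lt_of_le_of_lt ?_ hd
    rw [← ofReal_measureReal (measure_ne_top _ _)]
    exact ENNReal.ofReal_le_ofReal h2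
  let B : ℕ → Set α := fun n => {x | M ≤ |f n x|}
  have hBm : ∀ n, MeasurableSet (B n) := fun n => measurableSet_le measurable_const (hfm n).abs
  let g : ℕ → α → ℝ := fun n => (B n)ᶜ.indicator (f n)
  have hgm : ∀ n, Measurable (g n) := fun n => (hfm n).indicator (hBm n).compl
  have hgM : ∀ n x, ‖g n x‖ ≤ M := by
    intro n x
    by_cases hx : x ∈ (B n)ᶜ
    · simp only [g, indicator_of_mem hx, Real.norm_eq_abs]
      have hx' : ¬ M ≤ |f n x| := hx
      exact (not_le.1 hx').le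
    · simp only [g, indicator_of_notMem hx, norm_zero]
      exact hM0.le
  have hg2 : ∀ n, MemLp (g n) 2 μ := fun n =>
    MemLp.of_bound (hgm n).aestronglyMeasurable M (Eventually.of_forall (hgM n))
  let w : ℕ → Lp ℝ 2 μ := fun n => (hg2 n).toLp (g n)
  set R : ℝ := (measureUnivNNReal μ : ℝ) ^ (2 : ℝ≥0∞).toReal⁻¹ with hR
  have hR0 : 0 ≤ R := by positivity
  have huR : ∀ n, ‖w n‖ ≤ R * M := by
    intro n
    apply Lp.norm_le_of_ae_bound hM0.le
    filter_upwards [(hg2 n).coeFn_toLp] with x hx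
    rw [hx]
    exact hgM n x
  have key : ∀ z ∈ range fun A : Set α => v A, ∃ y : Lp ℝ 2 μ, ‖y‖ ≤ R ∧
      ∀ n, |z n - inner ℝ y (w n)| ≤ ε := by
    rintro z ⟨A, rfl⟩
    by_cases hAm : MeasurableSet A
    swap
    · refine ⟨0, by simpa using hR0, fun n => ?_⟩
      simp [v.not_measurable hAm, hε.le]
    refine ⟨indicatorConstLp 2 hAm (measure_ne_top μ A) (1 : ℝ), ?_, fun n => ?_⟩
    · refine le_trans (Lp.norm_le_of_ae_bound zero_le_one ?_) (mul_one R).le
      filter_upwards [indicatorConstLp_coeFn (p := 2) (hs := hAm) (hμs := measure_ne_top μ A)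
        (c := (1 : ℝ))] with x hx
      rw [hx]
      by_cases h : x ∈ A <;> simp [h]
    · rw [L2.inner_indicatorConstLp_one]
      have h1 : ∫ x in A, w n x ∂μ = ∫ x in A, g n x ∂μ :=
        integral_congr_ae (ae_restrict_of_ae (hg2 n).coeFn_toLp)
      rw [h1, setIntegral_indicator (hBm n).compl, hfs n _ (hAm.inter (hBm n).compl)]
      have h4 : s n A = s n (A ∩ B n) + s n (A ∩ (B n)ᶜ) := by
        rw [← VectorMeasure.of_union (disjoint_compl_right.mono inter_subset_right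
          inter_subset_right) (hAm.inter (hBm n)) (hAm.inter (hBm n).compl), inter_union_compl]
      show |s n A - s n (A ∩ (B n)ᶜ)| ≤ ε
      rw [h4, add_sub_cancel_right]
      exact (hle n _).trans (hδ _ (hAm.inter (hBm n))
        (lt_of_le_of_lt (measure_mono inter_subset_right) (hM n)))
  choose! y hy1 hy2 using key
  have hR1 : 0 < R + 1 := by positivity
  refine ⟨Lp ℝ 2 μ, inferInstance, inferInstance, (R + 1) * (R * M + 1),
    fun z => (R + 1)⁻¹ • y z, fun n => (R + 1) • w n, by positivity, fun z hz => ?_, fun n => ?_,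
    fun z hz n => ?_⟩
  · rw [norm_smul, Real.norm_eq_abs, abs_of_pos (inv_pos.2 hR1), inv_mul_le_iff₀ hR1]
    linarith [hy1 z hz]
  · rw [norm_smul, Real.norm_eq_abs, abs_of_pos hR1]
    exact mul_le_mul_of_nonneg_left (by linarith [huR n]) hR1.le
  · rw [real_inner_smul_left, real_inner_smul_right, inv_mul_cancel_left₀ hR1.ne']
    exact hy2 z hz n

/-- The approximation property in coordinates that vanish in the limit. -/
theorem Ap.coord {K : Set C0} (hK : Ap.{u} K) {ε : ℝ} (hε : 0 < ε) :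
    ∃ (M : ℝ) (a : ℕ → ℕ → ℝ) (l : ℕ → ℕ) (c : C0 → ℕ → ℝ) (N : C0 → ℕ), 0 < M ∧
      (∀ n R, ∑ i ∈ Finset.range R, a n i ^ 2 ≤ M ^ 2) ∧ (∀ n i, l n ≤ i → a n i = 0) ∧
      (∀ i, Tendsto (fun n => a n i) atTop (𝓝 0)) ∧
      (∀ x ∈ K, ∀ R, ∑ i ∈ Finset.range R, c x i ^ 2 ≤ 1) ∧
      ∀ x ∈ K, ∀ n, |x n - ∑ i ∈ Finset.range (N x), c x i * a n i| ≤ ε := by
  obtain ⟨H, i1, i2, M, h, g, a, b, c, d⟩ := hK (ε / 5) (by positivity)
  obtain ⟨k, k1, k2, k3⟩ := exists_coord g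
  have hc : ∀ x ∈ K, ∀ R, ∑ i ∈ Finset.range R, k (h x) i ^ 2 ≤ 1 := fun x hx R =>
    (k1 _ R).trans (pow_le_one₀ (norm_nonneg _) (b x hx))
  obtain ⟨a', l, N, p1, p2, p3, p4⟩ := veech K (fun x => k (h x)) (fun n => k (g n)) a
    (by positivity : 0 < ε / 5) hc
    (fun n R => (k1 _ R).trans (pow_le_pow_left₀ (norm_nonneg _) (c n) 2)) k2
    fun x hx n => by rw [← k3]; exact d x hx n
  exact ⟨2 * M, a', l, fun x => k (h x), N, by positivity, p1, p2, p3, hc,
    fun x hx n => (p4 x hx n).trans (by linarith)⟩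

end Pool.Agent.Lib.MP_c0175c_an.Ch
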