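import Pool.Agent.Lib.MP_c0175c_an.Ch.Tilt

set_option autoImplicit false

open MeasureTheory Set Filter Topology

namespace Pool.Agent.Lib.MP_c0175c_an.Ch

/-- The uniform distribution on the unit interval. -/
noncomputable def unif : Measure ℝ := volume.restrict (Icc 0 1)

instance unif_prob : IsProbabilityMeasure unif := ⟨by simp [unif]⟩

theorem unif_Iic {s : ℝ} (h0 : 0 ≤ s) (h1 : s ≤ 1) : unif.real (Iic s) = s := by
  have e : Iic s ∩ Icc (0 : ℝ) 1 = Icc 0 s := by
    ext t
    simp only [mem_inter_iff, mem_Iic, mem_Icc]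
    exact ⟨fun h => ⟨h.2.1, h.1⟩, fun h => ⟨h.2, h.1, h.2.trans h1⟩⟩
  rw [measureReal_def, unif, Measure.restrict_apply measurableSet_Iic, e, Real.volume_Icc,
    sub_zero, ENNReal.toReal_ofReal h0]

theorem under_graph {α : Type} [MeasurableSpace α] (P : Measure α) [IsFiniteMeasure P]
    {g ψ : α → ℝ} (hg : Integrable g P) (hψ : Measurable ψ) (h0 : ∀ x, 0 ≤ ψ x)
    (h1 : ∀ x, ψ x ≤ 1) :
    ∫ p in {p : α × ℝ | p.2 ≤ ψ p.1}, g p.1 ∂P.prod unif = ∫ x, ψ x * g x ∂P := by
  have hm : MeasurableSet {p : α × ℝ | p.2 ≤ ψ p.1} :=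
    measurableSet_le measurable_snd (hψ.comp measurable_fst)
  rw [← integral_indicator hm, integral_prod _ ((hg.comp_fst unif).indicator hm)]
  refine integral_congr_ae (Eventually.of_forall fun x => ?_)
  have e : (fun t => {p : α × ℝ | p.2 ≤ ψ p.1}.indicator (fun p => g p.1) (x, t)) =
      (Iic (ψ x)).indicator fun _ => g x := by
    funext t
    by_cases h : t ≤ ψ x
    · rw [indicator_of_mem (show (x, t) ∈ {p : α × ℝ | p.2 ≤ ψ p.1} from h),
        indicator_of_mem (show t ∈ Iic (ψ x) from h)]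
    · rw [indicator_of_notMem (show (x, t) ∉ {p : α × ℝ | p.2 ≤ ψ p.1} from h),
        indicator_of_notMem (show t ∉ Iic (ψ x) from h)]
  show ∫ t, {p : α × ℝ | p.2 ≤ ψ p.1}.indicator (fun p => g p.1) (x, t) ∂unif = ψ x * g x
  rw [e, integral_indicator_const _ measurableSet_Iic, unif_Iic (h0 x) (h1 x), smul_eq_mul]

/-- The space that carries each stage of the construction. -/
abbrev Om := ((ℕ × ℕ) → Bool) × ℝ

/-- One stage: a measure of size `ρ` whose range nearly contains all small inner products. -/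
theorem stage (a : ℕ → ℕ → ℝ) (l : ℕ → ℕ) {M : ℝ} (hM : 0 < M)
    (ha : ∀ n N, ∑ i ∈ Finset.range N, a n i ^ 2 ≤ M ^ 2) (h0 : ∀ n i, l n ≤ i → a n i = 0)
    (hl : ∀ i, Tendsto (fun n => a n i) atTop (𝓝 0)) {ρ η : ℝ} (hρ : 0 < ρ) (hη : 0 < η) :
    ∃ ν : VectorMeasure Om C0, (∀ E, ‖ν E‖ ≤ 4 * ρ) ∧ ∀ (h : ℕ → ℝ) (N : ℕ),
      ∑ i ∈ Finset.range N, h i ^ 2 ≤ 1 → (∀ n, |∑ i ∈ Finset.range N, h i * a n i| ≤ ρ) →
      ∃ E, MeasurableSet E ∧ ∀ n, |ν E n - ∑ i ∈ Finset.range N, h i * a n i| ≤ 2 * η := by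
  obtain ⟨m, hm⟩ := exists_nat_gt (M ^ 2 / η ^ 2)
  have hm0 : (0 : ℝ) < m := lt_of_le_of_lt (by positivity) hm
  let F : ℕ → Finset (ℕ × ℕ) := fun n => Finset.range (l n) ×ˢ Finset.range m
  let θ : ℕ → ℕ × ℕ → ℝ := fun n p => if p.2 < m then a n p.1 / M else 0
  have t0 : ∀ n, ∀ p ∉ F n, θ n p = 0 := by
    intro n p hp
    simp only [F, Finset.mem_product, Finset.mem_range, not_and] at hp
    by_cases k : p.2 < m
    · simp [θ, h0 n p.1 (not_lt.1 fun j => hp j k)]
    · simp [θ, k]
  have t1 : ∀ n p, |θ n p| ≤ 1 := by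
    intro n p
    by_cases k : p.2 < m
    · have b1 : a n p.1 ^ 2 ≤ M ^ 2 :=
        (Finset.single_le_sum (f := fun i => a n i ^ 2) (fun i _ => sq_nonneg _)
          (Finset.self_mem_range_succ p.1)).trans (ha n _)
      simp only [θ, k, if_true, abs_div, abs_of_pos hM]
      rw [div_le_one hM]
      exact abs_le_of_sq_le_sq' b1 hM.le |> abs_le.2
    · simp [θ, k]
  have t2 : ∀ n, ∑ p ∈ F n, θ n p ^ 2 ≤ m := by
    intro n
    have e : ∑ p ∈ F n, θ n p ^ 2 = m * ((∑ i ∈ Finset.range (l n), a n i ^ 2) / M ^ 2) := by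
      rw [Finset.sum_product, Finset.sum_div, Finset.mul_sum]
      refine Finset.sum_congr rfl fun i _ => ?_
      rw [Finset.sum_congr rfl (g := fun _ => a n i ^ 2 / M ^ 2)
        fun j hj => by simp [θ, Finset.mem_range.1 hj, div_pow]]
      simp
    rw [e]
    exact mul_le_of_le_one_right hm0.le ((div_le_one (by positivity)).2 (ha n _))
  have t3 : ∀ p, Tendsto (fun n => θ n p) atTop (𝓝 0) := by
    intro p
    by_cases k : p.2 < m
    · simpa [θ, k] using (hl p.1).div_const M
    · simp [θ, k]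
  have d : ∀ n, Dep (F n) (W (F n) (θ n)) := fun n => dep_W _ _
  let g : ℕ → ((ℕ × ℕ) → Bool) → ℝ := fun n ω => W (F n) (θ n) ω - 1
  have g1 : ∀ n, Integrable (g n) (coins _) := fun n => (d n).int.sub (integrable_const _)
  have g2 : ∀ n, Integrable (fun ω => g n ω ^ 2) (coins _) := fun n =>
    ((d n).op (d n) fun a _ => (a - 1) ^ 2).int
  have g0 : ∀ n, ∫ ω, g n ω ∂coins _ = 0 := fun n => by
    rw [integral_sub (d n).int (integrable_const _), integral_W]
    simp
  have g3 : ∀ n, ∫ ω, g n ω ^ 2 ∂coins _ ≤ Real.exp m + 1 := by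
    intro n
    have i2 := ((d n).op (d n) fun a _ => a ^ 2).int
    have b1 : ∫ ω, g n ω ^ 2 ∂coins _ ≤ ∫ ω, (W (F n) (θ n) ω ^ 2 + 1) ∂coins _ :=
      integral_mono (g2 n) (i2.add (integrable_const _)) fun ω => by
        have := W_nonneg (F n) (t1 n) ω
        show (W (F n) (θ n) ω - 1) ^ 2 ≤ W (F n) (θ n) ω ^ 2 + 1
        nlinarith
    rw [integral_add i2 (integrable_const _), integral_const, probReal_univ, one_smul] at b1
    have b2 := (integral_W_sq (F n) (θ n)).trans (Real.exp_le_exp.2 (t2 n))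
    linarith
  have g4 := W_null F θ t0 g3 t3
  have f1 : ∀ n, Integrable (fun p : Om => g n p.1) ((coins _).prod unif) := fun n =>
    (g1 n).comp_fst unif
  have f2 : ∀ n, Integrable (fun p : Om => g n p.1 ^ 2) ((coins _).prod unif) := fun n =>
    (g2 n).comp_fst unif
  have f3 : ∀ n, ∫ p : Om, g n p.1 ^ 2 ∂(coins _).prod unif ≤ Real.exp m + 1 := fun n => by
    rw [integral_fun_fst fun ω => g n ω ^ 2, probReal_univ, one_smul]
    exact g3 n
  have f4 := null_all (f := fun n (p : Om) => g n p.1) f1 f2 f3 generateFrom_prod.symm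
    isPiSystem_prod (tendsto_const_nhds.congr fun n => by rw [integral_fun_fst, g0]; simp) (by
      rintro E ⟨A, hA, B, -, rfl⟩
      have b1 := (g4 A hA).mul_const (∫ _y in B, (1 : ℝ) ∂unif)
      rw [zero_mul] at b1
      refine b1.congr fun n => ?_
      rw [← setIntegral_prod_mul]
      simp [g])
  obtain ⟨ν, hν⟩ := exists_vm (f := fun n (p : Om) => g n p.1) f1 f2 f3 f4
  have ap : ∀ E n, ((2 * ρ) • ν) E n = 2 * ρ * ν E n := fun E n => rfl
  refine ⟨(2 * ρ) • ν, fun E => ?_, fun h N hh hb => ?_⟩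
  · refine norm_le0 _ (by positivity) fun n => ?_
    rw [ap, abs_mul, abs_of_pos (by positivity : 0 < 2 * ρ)]
    have b0 : |ν E n| ≤ 2 := by
      by_cases hE : MeasurableSet E
      · rw [hν E hE]
        refine abs_integral_le_integral_abs.trans ((setIntegral_le_integral (f1 n).abs
          (Eventually.of_forall fun p => abs_nonneg _)).trans ?_)
        rw [integral_fun_fst fun ω => |g n ω|, probReal_univ, one_smul]
        have b1 : ∫ ω, |g n ω| ∂coins _ ≤ ∫ ω, (W (F n) (θ n) ω + 1) ∂coins _ :=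
          integral_mono (g1 n).abs ((d n).int.add (integrable_const _)) fun ω => by
            have := W_nonneg (F n) (t1 n) ω
            show |W (F n) (θ n) ω - 1| ≤ W (F n) (θ n) ω + 1
            rw [abs_le]
            constructor <;> linarith
        rw [integral_add (d n).int (integrable_const _), integral_W, integral_const, probReal_univ,
          one_smul] at b1
        linarith
      · rw [ν.not_measurable hE]
        simp
    nlinarith
  · let G : Finset (ℕ × ℕ) := Finset.range N ×ˢ Finset.range m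
    let c : ℕ × ℕ → ℝ := fun p => M / m * h p.1
    have c1 : ∑ p ∈ G, c p ^ 2 ≤ η ^ 2 := by
      have e : ∑ p ∈ G, c p ^ 2 = M ^ 2 / m * ∑ i ∈ Finset.range N, h i ^ 2 := by
        rw [Finset.sum_product, Finset.mul_sum]
        refine Finset.sum_congr rfl fun i _ => ?_
        simp only [c, Finset.sum_const, Finset.card_range, nsmul_eq_mul]
        field_simp
      rw [e]
      refine (mul_le_of_le_one_right (by positivity) hh).trans ?_
      rw [div_lt_iff₀ (by positivity)] at hm
      rw [div_le_iff₀ hm0]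
      linarith
    have c2 : ∀ n, ∑ p ∈ G, c p * θ n p = ∑ i ∈ Finset.range N, h i * a n i := by
      intro n
      rw [Finset.sum_product]
      refine Finset.sum_congr rfl fun i _ => ?_
      rw [Finset.sum_congr rfl (g := fun _ => M / m * h i * (a n i / M))
        fun j hj => by simp [θ, c, Finset.mem_range.1 hj]]
      simp only [Finset.sum_const, Finset.card_range, nsmul_eq_mul]
      field_simp
    let s : ((ℕ × ℕ) → Bool) → ℝ := fun ω => max (-ρ) (min ρ (∑ p ∈ G, c p * sg (ω p)))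
    have ds : Dep G s := (dep_sum G fun p b => c p * sg b).op (dep_sum G fun p b => c p * sg b)
      fun y _ => max (-ρ) (min ρ y)
    have s1 : ∀ ω, -ρ ≤ s ω := fun ω => le_max_left _ _
    have s2 : ∀ ω, s ω ≤ ρ := fun ω => max_le (by linarith) (min_le_left _ _)
    let ψ : ((ℕ × ℕ) → Bool) → ℝ := fun ω => (ρ + s ω) / (2 * ρ)
    have mψ : Measurable ψ := (ds.op ds fun y _ => (ρ + y) / (2 * ρ)).meas
    have mE : MeasurableSet {p : Om | p.2 ≤ ψ p.1} :=
      measurableSet_le measurable_snd (mψ.comp measurable_fst)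
    refine ⟨_, mE, fun n => ?_⟩
    rw [ap, hν _ mE, under_graph _ (g1 n) mψ
      (fun ω => div_nonneg (by linarith [s1 ω]) (by positivity))
      (fun ω => (div_le_one (by positivity)).2 (by linarith [s2 ω])), ← integral_const_mul]
    have e1 := estimate (F n) G (t0 n) (t1 n) c hη c1 (ρ := ρ) (by rw [c2]; exact hb n)
    have e2 := estimate ∅ G (θ := fun _ => 0) (fun _ _ => rfl) (fun _ => by simp) c hη c1 (ρ := ρ)
      (by simpa using hρ.le)
    simp only [W, Finset.prod_empty, one_mul, mul_zero, Finset.sum_const_zero, sub_zero] at e2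
    rw [c2] at e1
    have i1 : Integrable (fun ω => W (F n) (θ n) ω * s ω) (coins _) :=
      (((d n).mono Finset.subset_union_left).op (ds.mono (Finset.subset_union_right (s₁ := F n)))
        fun x y => x * y).int
    have e3 : ∫ ω, 2 * ρ * (ψ ω * g n ω) ∂coins _ =
        ∫ ω, (ρ * g n ω + (W (F n) (θ n) ω * s ω - s ω)) ∂coins _ :=
      integral_congr_ae (Eventually.of_forall fun ω => by
        show 2 * ρ * ((ρ + s ω) / (2 * ρ) * (W (F n) (θ n) ω - 1)) =
          ρ * (W (F n) (θ n) ω - 1) + (W (F n) (θ n) ω * s ω - s ω)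
        field_simp)
    have i2 : Integrable (fun ω => W (F n) (θ n) ω * s ω - s ω) (coins _) := i1.sub ds.int
    rw [e3, integral_add ((g1 n).const_mul _) i2, integral_const_mul, g0, integral_sub i1 ds.int]
    have b1 := abs_le.1 e1
    have b2 := abs_le.1 e2
    rw [abs_le]
    constructor <;> linarith [b1.1, b1.2, b2.1, b2.2]

end Pool.Agent.Lib.MP_c0175c_an.Ch
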