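import Pool.Agent.Lib.MP_c0175c_an.Ch.Dir1
import Pool.Agent.Lib.MP_c0175c_an.Ch.Stage

set_option autoImplicit false

open MeasureTheory Set Filter Topology

namespace Pool.Agent.Lib.MP_c0175c_an.Ch

universe u

theorem step {K : Set C0} (hK : Ap.{0} K) {β : ℝ} (hβ : 0 < β) (hb : ∀ x ∈ K, ‖x‖ ≤ β) :
    ∃ ν : VectorMeasure Om C0, (∀ E, ‖ν E‖ ≤ 8 * β) ∧
      ∀ x ∈ K, ∃ E, MeasurableSet E ∧ ‖x - ν E‖ ≤ β / 2 := by
  obtain ⟨M, a, l, c, N, hM, p1, p2, p3, p4, p5⟩ := hK.coord (ε := β / 4) (by positivity)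
  obtain ⟨ν, n1, n2⟩ := stage a l hM p1 p2 p3 (ρ := 2 * β) (η := β / 8) (by positivity)
    (by positivity)
  refine ⟨ν, fun E => (n1 E).trans (by linarith), fun x hx => ?_⟩
  obtain ⟨E, hE, h⟩ := n2 (c x) (N x) (p4 x hx _) fun n => by
    have b1 := abs_le.1 (p5 x hx n)
    have b2 := abs_le.1 ((Blocks.abs_apply_le x n).trans (hb x hx))
    rw [abs_le]
    constructor <;> linarith [b1.1, b1.2, b2.1, b2.2]
  refine ⟨E, hE, norm_le0 _ (by positivity) fun n => ?_⟩
  have b1 := abs_le.1 (p5 x hx n)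
  have b2 := abs_le.1 (h n)
  rw [ZeroAtInftyContinuousMap.sub_apply, abs_le]
  constructor <;> linarith [b1.1, b1.2, b2.1, b2.2]

/-- Sets with the approximation property lie in a range. -/
theorem range_of_ap {K : Set C0} (hK : Ap.{0} K) :
    ∃ μ : VectorMeasure (ℕ × Om) C0, K ⊆ range fun A => μ A := by
  obtain ⟨β, hβ, hb⟩ : ∃ β : ℝ, 0 < β ∧ ∀ x ∈ K, ‖x‖ ≤ β := by
    obtain ⟨H, i1, i2, M, h, g, a, b, c, d⟩ := hK 1 one_pos
    refine ⟨M + 1, by positivity, fun x hx => norm_le0 x (by positivity) fun n => ?_⟩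
    have b1 := abs_le.1 (d x hx n)
    have b2 : |inner ℝ (h x) (g n)| ≤ 1 * M := (abs_real_inner_le_norm _ _).trans
      (mul_le_mul (b x hx) (c n) (norm_nonneg _) zero_le_one)
    have b3 := abs_le.1 b2
    rw [abs_le]
    constructor <;> linarith [b1.1, b1.2, b3.1, b3.2]
  let S : ℕ → Type := fun k => {L : Set C0 // Ap.{0} L ∧ ∀ x ∈ L, ‖x‖ ≤ β * (1 / 2) ^ k}
  have st : ∀ k (L : S k), ∃ (ν : VectorMeasure Om C0) (L' : S (k + 1)) (E : C0 → Set Om),
      (∀ A, ‖ν A‖ ≤ 8 * (β * (1 / 2) ^ k)) ∧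
      ∀ x ∈ L.1, MeasurableSet (E x) ∧ x - ν (E x) ∈ L'.1 := by
    intro k L
    obtain ⟨ν, n1, n2⟩ := step L.2.1 (by positivity) L.2.2
    choose! E hE1 hE2 using n2
    refine ⟨ν, ⟨{z | (∃ x ∈ L.1, ∃ y ∈ range fun A => ν A, z = x - y) ∧
      ‖z‖ ≤ β * (1 / 2) ^ (k + 1)}, (L.2.1.sub (ap_range ν)).mono fun z hz => hz.1,
      fun z hz => hz.2⟩, E, n1, fun x hx => ⟨hE1 x hx, ⟨x, hx, _, ⟨E x, rfl⟩, rfl⟩, ?_⟩⟩
    refine (hE2 x hx).trans (le_of_eq ?_)
    ring
  choose ν nx E h1 h2 using st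
  let L : ∀ k, S k := fun k => Nat.rec ⟨K, hK, by simpa using hb⟩ (fun k L => nx k L) k
  have hs : Summable fun k : ℕ => 8 * (β * (1 / 2 : ℝ) ^ k) :=
    (summable_geometric_two.mul_left β).mul_left 8
  obtain ⟨μ, hμ⟩ := exists_sum (fun k => ν k (L k)) hs fun k => h1 k (L k)
  refine ⟨μ, fun x hx => ?_⟩
  let r : ℕ → C0 := fun k => Nat.rec x (fun k y => y - ν k (L k) (E k (L k) y)) k
  have r1 : ∀ k, r k ∈ (L k).1 := by
    intro k
    induction k with
    | zero => exact hx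
    | succ k ih => exact (h2 k (L k) _ ih).2
  have r2 : ∀ k, ∑ j ∈ Finset.range k, ν j (L j) (E j (L j) (r j)) = x - r k := by
    intro k
    induction k with
    | zero => exact (sub_self x).symm
    | succ k ih =>
      rw [Finset.sum_range_succ, ih]
      show _ = x - (r k - ν k (L k) (E k (L k) (r k)))
      abel
  have r3 : Tendsto r atTop (𝓝 0) := by
    refine squeeze_zero_norm (fun k => (L k).2.2 _ (r1 k)) ?_
    simpa using (tendsto_pow_atTop_nhds_zero_of_lt_one (r := (1 / 2 : ℝ)) (by norm_num)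
      (by norm_num)).const_mul β
  have t1 := (hμ (fun k => E k (L k) (r k)) fun k => (h2 k (L k) _ (r1 k)).1).tendsto_sum_nat
  simp only [r2] at t1
  have t2 := r3.const_sub x
  rw [sub_zero] at t2
  exact ⟨_, tendsto_nhds_unique t1 t2⟩

theorem range_lift {α : Type} [MeasurableSpace α] (μ : VectorMeasure α C0) :
    ∃ (β : Type u) (_ : MeasurableSpace β) (ν : VectorMeasure β C0),
      (range fun A => μ A) ⊆ range fun A => ν A := by
  refine ⟨ULift α, inferInstance, μ.map ULift.up, ?_⟩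
  rintro _ ⟨A, rfl⟩
  by_cases hA : MeasurableSet A
  · exact ⟨ULift.down ⁻¹' A, μ.map_apply measurable_up (measurable_down hA)⟩
  · exact ⟨∅, by simp [μ.not_measurable hA]⟩

/-- The Hilbert space of square summable sequences. -/
abbrev L2 := lp (fun _ : ℕ => ℝ) 2

theorem l2_sum (h : L2) (t : Finset ℕ) : ∑ i ∈ t, h i ^ 2 ≤ ‖h‖ ^ 2 := by
  have := lp.sum_rpow_le_norm_rpow (p := 2) (by norm_num) h t
  simpa using this

theorem ap_of_op {K : Set C0}
    (hK : ∀ ε : ℝ, 0 < ε → ∃ T : L2 →L[ℝ] C0, ∀ x ∈ K, ∃ h : L2, ‖h‖ ≤ 1 ∧ ‖x - T h‖ ≤ ε) :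
    Ap.{0} K := by
  intro ε hε
  obtain ⟨T, hT⟩ := hK ε hε
  choose! h h1 h2 using hT
  let φ : ℕ → StrongDual ℝ L2 := fun n => LinearMap.mkContinuous
    { toFun := fun y => T y n
      map_add' := fun y z => by rw [map_add]; rfl
      map_smul' := fun r y => by rw [map_smul]; rfl } ‖T‖
    fun y => (Blocks.abs_apply_le (T y) n).trans (T.le_opNorm y)
  refine ⟨L2, inferInstance, inferInstance, ‖T‖ + 1, h,
    fun n => (InnerProductSpace.toDual ℝ L2).symm (φ n), by positivity, h1, fun n => ?_,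
    fun x hx n => ?_⟩
  · rw [LinearIsometryEquiv.norm_map]
    have : ‖φ n‖ ≤ ‖T‖ := LinearMap.mkContinuous_norm_le _ (norm_nonneg T) _
    linarith
  · rw [real_inner_comm, InnerProductSpace.toDual_symm_apply]
    exact (Blocks.abs_apply_le (x - T (h x)) n).trans (h2 x hx)

theorem op_of_ap {K : Set C0} (hK : Ap.{u} K) {ε : ℝ} (hε : 0 < ε) :
    ∃ T : L2 →L[ℝ] C0, ∀ x ∈ K, ∃ h : L2, ‖h‖ ≤ 1 ∧ ‖x - T h‖ ≤ ε := by
  obtain ⟨M, a, l, c, N, hM, p1, p2, p3, p4, p5⟩ := hK.coord hε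
  have sub : ∀ {u : ℕ → ℝ} {B : ℝ}, (∀ R, ∑ i ∈ Finset.range R, u i ^ 2 ≤ B) →
      ∀ t : Finset ℕ, ∑ i ∈ t, u i ^ 2 ≤ B := fun {u B} h t => by
    obtain ⟨R, hR⟩ := t.exists_nat_subset_range
    exact (Finset.sum_le_sum_of_subset_of_nonneg hR fun i _ _ => sq_nonneg _).trans (h R)
  have ext : ∀ (n R : ℕ) (y : ℕ → ℝ), l n ≤ R → ∑ i ∈ Finset.range (l n), a n i * y i =
      ∑ i ∈ Finset.range R, a n i * y i := fun n R y hR =>
    Finset.sum_subset (Finset.range_subset_range.2 hR) fun i _ hi => by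
      rw [p2 n i (not_lt.1 fun k => hi (Finset.mem_range.2 k)), zero_mul]
  have nul : ∀ y : L2, Tendsto (fun n => ∑ i ∈ Finset.range (l n), a n i * y i) atTop (𝓝 0) := by
    intro y
    rw [Metric.tendsto_nhds]
    intro δ hδ
    obtain ⟨R, -, hR⟩ := exists_tail (fun R => l2_sum y (Finset.range R)) (δ := δ / 2 / M)
      (by positivity) 0
    have t1 : Tendsto (fun n => ∑ i ∈ Finset.range R, a n i * y i) atTop (𝓝 0) := by
      simpa using tendsto_finsetSum (Finset.range R) fun i _ => (p3 i).mul_const (y i)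
    filter_upwards [Metric.tendsto_nhds.1 t1 (δ / 2) (by positivity)] with n hn
    rw [Real.dist_eq, sub_zero] at hn ⊢
    have e2 := Finset.sum_range_add_sum_Ico (fun i => a n i * y i) (le_max_right (l n) R)
    have e3 := cs (Finset.Ico R (max (l n) R)) (a n) y hM.le (by positivity : 0 ≤ δ / 2 / M)
      (sub (p1 n) _) (hR _ fun i hi => (Finset.mem_Ico.1 hi).1)
    rw [mul_div_cancel₀ _ hM.ne'] at e3
    have b1 := abs_lt.1 hn
    have b2 := abs_le.1 e3
    rw [ext n _ _ (le_max_left (l n) R), ← e2, abs_lt]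
    constructor <;> linarith [b1.1, b1.2, b2.1, b2.2]
  let T0 : L2 →ₗ[ℝ] C0 :=
    { toFun := fun y => mk0 _ (nul y)
      map_add' := fun y z => by
        ext n
        simp only [mk0_apply, ZeroAtInftyContinuousMap.add_apply, lp.coeFn_add, Pi.add_apply,
          mul_add, Finset.sum_add_distrib]
      map_smul' := fun r y => by
        ext n
        simp only [mk0_apply, ZeroAtInftyContinuousMap.smul_apply, lp.coeFn_smul, Pi.smul_apply,
          smul_eq_mul, RingHom.id_apply, Finset.mul_sum]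
        exact Finset.sum_congr rfl fun i _ => by ring }
  refine ⟨T0.mkContinuous M fun y => norm_le0 _ (by positivity) fun n =>
    cs _ (a n) y hM.le (norm_nonneg _) (p1 n _) (l2_sum y _), fun x hx => ?_⟩
  let y : ℕ → ℝ := fun i => if i < N x then c x i else 0
  have y1 : ∀ t : Finset ℕ, ∑ i ∈ t, ‖y i‖ ^ (2 : ENNReal).toReal ≤ 1 ^ (2 : ENNReal).toReal := by
    intro t
    simp only [ENNReal.toReal_ofNat, Real.rpow_ofNat, Real.norm_eq_abs, sq_abs, one_pow]
    refine le_trans (Finset.sum_le_sum fun i _ => ?_) (sub (p4 x hx) t)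
    simp only [y]
    split_ifs
    · exact le_rfl
    · simpa using sq_nonneg (c x i)
  refine ⟨⟨y, memℓp_gen' y1⟩, lp.norm_le_of_forall_sum_le (by norm_num) zero_le_one y1,
    norm_le0 _ hε.le fun n => ?_⟩
  have e : ∑ i ∈ Finset.range (l n), a n i * y i = ∑ i ∈ Finset.range (N x), c x i * a n i := by
    rw [ext n _ _ (le_max_left (l n) (N x)), ← Finset.sum_subset
      (Finset.range_subset_range.2 (le_max_right (l n) (N x))) fun i _ hi => by
        simp [y, show ¬ i < N x from fun k => hi (Finset.mem_range.2 k)]]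
    exact Finset.sum_congr rfl fun i hi => by simp [y, Finset.mem_range.1 hi, mul_comm]
  show |x n - ∑ i ∈ Finset.range (l n), a n i * y i| ≤ ε
  rw [e]
  exact p5 x hx n

end Pool.Agent.Lib.MP_c0175c_an.Ch
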