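import Pool.Agent.Lib.MP_c0175c_an.Ch.VM

set_option autoImplicit false

open MeasureTheory Set Filter Topology

namespace Pool.Agent.Lib.MP_c0175c_an.Ch

open Classical

/-- A fair coin. -/
noncomputable def coin : Measure Bool := (PMF.uniformOfFintype Bool).toMeasure

instance coin_prob : IsProbabilityMeasure coin := by
  unfold coin
  infer_instance

theorem integral_coin (u : Bool → ℝ) : ∫ b, u b ∂coin = (u true + u false) / 2 := by
  unfold coin
  rw [PMF.integral_eq_sum]
  simp [PMF.uniformOfFintype_apply]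
  ring

/-- Independent fair coins. -/
noncomputable def coins (ι : Type) : Measure (ι → Bool) := Measure.infinitePi fun _ : ι => coin

instance coins_prob (ι : Type) : IsProbabilityMeasure (coins ι) := by
  unfold coins
  infer_instance

variable {ι : Type}

/-- `f` depends only on the coordinates in `F`. -/
def Dep (F : Finset ι) (f : (ι → Bool) → ℝ) : Prop :=
  ∀ ω ω' : ι → Bool, (∀ i ∈ F, ω i = ω' i) → f ω = f ω'

theorem Dep.eq {F : Finset ι} {f : (ι → Bool) → ℝ} (h : Dep F f) :
    ∃ g : (F → Bool) → ℝ, f = fun ω => g (F.restrict ω) :=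
  ⟨fun y => f fun i => if hi : i ∈ F then y ⟨i, hi⟩ else true,
    funext fun ω => h _ _ fun i hi => by simp [hi]⟩

theorem Dep.meas {F : Finset ι} {f : (ι → Bool) → ℝ} (h : Dep F f) : Measurable f := by
  obtain ⟨g, rfl⟩ := h.eq
  exact (measurable_of_countable g).comp (Finset.measurable_restrict F)

theorem Dep.int {F : Finset ι} {f : (ι → Bool) → ℝ} (h : Dep F f) : Integrable f (coins ι) := by
  obtain ⟨g, rfl⟩ := h.eq
  have mp : MeasurePreserving F.restrict (coins ι) (Measure.pi fun _ : F => coin) :=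
    ⟨Finset.measurable_restrict F, Measure.infinitePi_map_restrict _⟩
  exact mp.integrable_comp_of_integrable Integrable.of_finite

theorem Dep.mono {F G : Finset ι} {f : (ι → Bool) → ℝ} (h : Dep F f) (hs : F ⊆ G) : Dep G f :=
  fun ω ω' e => h ω ω' fun i hi => e i (hs hi)

theorem Dep.op {F : Finset ι} {f g : (ι → Bool) → ℝ} (h : Dep F f) (k : Dep F g)
    (φ : ℝ → ℝ → ℝ) : Dep F fun ω => φ (f ω) (g ω) :=
  fun ω ω' e => by
    show φ (f ω) (g ω) = φ (f ω') (g ω')
    rw [h ω ω' e, k ω ω' e]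

theorem dep_prod (F : Finset ι) (u : ι → Bool → ℝ) : Dep F fun ω => ∏ i ∈ F, u i (ω i) :=
  fun _ _ e => Finset.prod_congr rfl fun i hi => by rw [e i hi]

theorem dep_sum (F : Finset ι) (u : ι → Bool → ℝ) : Dep F fun ω => ∑ i ∈ F, u i (ω i) :=
  fun _ _ e => Finset.sum_congr rfl fun i hi => by rw [e i hi]

theorem integral_coins (F : Finset ι) (u : ι → Bool → ℝ) :
    ∫ ω, ∏ i ∈ F, u i (ω i) ∂coins ι = ∏ i ∈ F, (u i true + u i false) / 2 := by
  have e : ∀ ω : ι → Bool, ∏ i ∈ F, u i (ω i) =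
      (fun y : F → Bool => ∏ i : F, u i (y i)) (F.restrict ω) := fun ω =>
    (Finset.prod_coe_sort F fun i => u i (ω i)).symm
  have k := integral_restrict_infinitePi (fun _ : ι => coin) (s := F)
    (f := fun y : F → Bool => ∏ i : F, u i (y i)) (measurable_of_countable _).aestronglyMeasurable
  rw [integral_fintype_prod_eq_prod (fun (i : F) (b : Bool) => u i b)] at k
  simp only [integral_coin] at k
  rw [Finset.prod_coe_sort F fun i => (u i true + u i false) / 2] at k
  rw [← k]
  exact integral_congr_ae (Eventually.of_forall e)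

/-- The density of biased coins. -/
noncomputable def W (F : Finset ι) (θ : ι → ℝ) (ω : ι → Bool) : ℝ :=
  ∏ i ∈ F, (1 + θ i * sg (ω i))

theorem dep_W (F : Finset ι) (θ : ι → ℝ) : Dep F (W F θ) :=
  dep_prod F fun i b => 1 + θ i * sg b

theorem W_ext {F G : Finset ι} {θ : ι → ℝ} (h : ∀ i ∉ F, θ i = 0) (hs : F ⊆ G) :
    W F θ = W G θ := by
  funext ω
  exact Finset.prod_subset hs fun i _ hi => by rw [h i hi]; simp

theorem W_nonneg (F : Finset ι) {θ : ι → ℝ} (h : ∀ i, |θ i| ≤ 1) (ω : ι → Bool) : 0 ≤ W F θ ω :=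
  Finset.prod_nonneg fun i _ => by
    have a : |θ i * sg (ω i)| ≤ 1 := by rw [abs_mul, abs_sg, mul_one]; exact h i
    linarith [(abs_le.1 a).1]

theorem integral_W (F : Finset ι) (θ : ι → ℝ) : ∫ ω, W F θ ω ∂coins ι = 1 := by
  unfold W
  rw [integral_coins F fun i b => 1 + θ i * sg b]
  exact Finset.prod_eq_one fun i _ => by simp [sg]; ring

theorem integral_W_sq (F : Finset ι) (θ : ι → ℝ) :
    ∫ ω, W F θ ω ^ 2 ∂coins ι ≤ Real.exp (∑ i ∈ F, θ i ^ 2) := by
  unfold W
  simp only [← Finset.prod_pow]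
  rw [integral_coins F fun i b => (1 + θ i * sg b) ^ 2, Real.exp_sum]
  refine Finset.prod_le_prod (fun i _ => by positivity) fun i _ => ?_
  have := Real.add_one_le_exp (θ i ^ 2)
  simp only [sg, if_true, Bool.false_eq_true, if_false]
  nlinarith

theorem integral_W_var (F : Finset ι) (θ c : ι → ℝ) :
    ∫ ω, W F θ ω * (∑ i ∈ F, c i * (sg (ω i) - θ i)) ^ 2 ∂coins ι ≤ ∑ i ∈ F, c i ^ 2 := by
  let u : ι → ι → ι → Bool → ℝ := fun i j l b =>
    (1 + θ l * sg b) * (if l = i then sg b - θ l else 1) * (if l = j then sg b - θ l else 1)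
  have e : ∀ ω : ι → Bool, W F θ ω * (∑ i ∈ F, c i * (sg (ω i) - θ i)) ^ 2 =
      ∑ i ∈ F, ∑ j ∈ F, c i * c j * ∏ l ∈ F, u i j l (ω l) := by
    intro ω
    rw [sq, Finset.sum_mul_sum, Finset.mul_sum]
    refine Finset.sum_congr rfl fun i hi => ?_
    rw [Finset.mul_sum]
    refine Finset.sum_congr rfl fun j hj => ?_
    simp only [u, Finset.prod_mul_distrib, Finset.prod_ite_eq', hi, hj, if_true, W]
    ring
  simp only [e]
  rw [integral_finsetSum _ fun i _ => integrable_finsetSum _ fun j _ =>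
    ((dep_prod F (u i j)).int.const_mul _)]
  refine Finset.sum_le_sum fun i hi => ?_
  rw [integral_finsetSum _ fun j _ => ((dep_prod F (u i j)).int.const_mul _),
    Finset.sum_eq_single i]
  · rw [integral_const_mul, integral_coins, Finset.prod_eq_single i]
    · simp only [u, sg, if_true, Bool.false_eq_true, if_false]
      nlinarith [sq_nonneg (c i * θ i)]
    · intro l _ hl
      simp [u, sg, hl]
      ring
    · exact fun h => (h hi).elim
  · intro j _ hj
    rw [integral_const_mul, integral_coins, Finset.prod_eq_zero hi, mul_zero]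
    simp only [u, sg, if_true, Bool.false_eq_true, if_false, hj.symm]
    ring
  · exact fun h => (h hi).elim

/-- The clipped linear statistic estimates the bias. -/
theorem estimate (F G : Finset ι) {θ : ι → ℝ} (h0 : ∀ i ∉ F, θ i = 0) (h1 : ∀ i, |θ i| ≤ 1)
    (c : ι → ℝ) {ρ η : ℝ} (hη : 0 < η) (hc : ∑ i ∈ G, c i ^ 2 ≤ η ^ 2)
    (hρ : |∑ i ∈ G, c i * θ i| ≤ ρ) :
    |∫ ω, W F θ ω * max (-ρ) (min ρ (∑ i ∈ G, c i * sg (ω i))) ∂coins ι - ∑ i ∈ G, c i * θ i|
      ≤ η := by
  set μ := ∑ i ∈ G, c i * θ i with hμ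
  set U := F ∪ G with hU
  let c' : ι → ℝ := fun i => if i ∈ G then c i else 0
  have e1 : ∀ v : ι → ℝ, ∑ i ∈ U, c' i * v i = ∑ i ∈ G, c i * v i := fun v => by
    rw [← Finset.sum_subset (Finset.subset_union_right (s₁ := F)) fun i _ hi => by simp [c', hi]]
    exact Finset.sum_congr rfl fun i hi => by simp [c', hi]
  have e2 : ∑ i ∈ U, c' i ^ 2 ≤ η ^ 2 := by
    simp only [sq (c' _)]
    rw [e1]
    refine le_trans (le_of_eq (Finset.sum_congr rfl fun i hi => ?_)) hc
    simp [c', hi, sq]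
  have v := (integral_W_var U θ c').trans e2
  have e3 : ∀ ω : ι → Bool, ∑ i ∈ U, c' i * (sg (ω i) - θ i) = ∑ i ∈ G, c i * sg (ω i) - μ := by
    intro ω
    rw [e1, hμ, ← Finset.sum_sub_distrib]
    exact Finset.sum_congr rfl fun i _ => by ring
  simp only [e3] at v
  rw [W_ext h0 (Finset.subset_union_left (s₂ := G))]
  have dW := dep_W U θ
  have dS : Dep U fun ω => ∑ i ∈ G, c i * sg (ω i) :=
    (dep_sum G fun i b => c i * sg b).mono Finset.subset_union_right
  have i1 := (dW.op dS fun a b => a * max (-ρ) (min ρ b)).int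
  have i2 := (dW.op dS fun a b => a * (b - μ) ^ 2).int
  have e4 : ∫ ω, W U θ ω * max (-ρ) (min ρ (∑ i ∈ G, c i * sg (ω i))) ∂coins ι - μ =
      ∫ ω, (W U θ ω * max (-ρ) (min ρ (∑ i ∈ G, c i * sg (ω i))) - W U θ ω * μ) ∂coins ι := by
    rw [integral_sub i1 (dW.int.mul_const _), integral_mul_const, integral_W, one_mul]
  rw [e4]
  refine abs_integral_le_integral_abs.trans ?_
  have e5 : ∫ ω, |W U θ ω * max (-ρ) (min ρ (∑ i ∈ G, c i * sg (ω i))) - W U θ ω * μ| ∂coins ι ≤
      ∫ ω, (1 / (2 * η) * (W U θ ω * (∑ i ∈ G, c i * sg (ω i) - μ) ^ 2) + η / 2 * W U θ ω)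
        ∂coins ι := by
    refine integral_mono (i1.sub (dW.int.mul_const _)).abs
      ((i2.const_mul _).add (dW.int.const_mul _)) fun ω => ?_
    have w0 := W_nonneg U h1 ω
    set s := ∑ i ∈ G, c i * sg (ω i) with hs
    set w := W U θ ω with hw
    have b1 : |max (-ρ) (min ρ s) - μ| ≤ |s - μ| := by
      have := abs_le.1 hρ
      have a1 := le_abs_self (s - μ)
      have a2 := neg_abs_le (s - μ)
      have a3 := abs_nonneg (s - μ)
      rw [abs_le]
      constructor
      · have := le_max_right (-ρ) (min ρ s)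
        rcases min_choice ρ s with h | h <;> rw [h] at this ⊢ <;> linarith
      · rw [sub_le_iff_le_add, max_le_iff]
        exact ⟨by linarith, (min_le_right _ _).trans (by linarith)⟩
    have b2 : |s - μ| ≤ 1 / (2 * η) * (s - μ) ^ 2 + η / 2 := by
      have b3 : 1 / (2 * η) * (s - μ) ^ 2 + η / 2 - |s - μ| = (|s - μ| - η) ^ 2 / (2 * η) := by
        rw [← sq_abs (s - μ)]
        field_simp
        ring
      have b4 : 0 ≤ (|s - μ| - η) ^ 2 / (2 * η) := by positivity
      linarith
    show |w * max (-ρ) (min ρ s) - w * μ| ≤ 1 / (2 * η) * (w * (s - μ) ^ 2) + η / 2 * w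
    rw [← mul_sub, abs_mul, abs_of_nonneg w0]
    nlinarith [mul_le_mul_of_nonneg_left (b1.trans b2) w0]
  refine e5.trans ?_
  rw [integral_add (i2.const_mul _) (dW.int.const_mul _), integral_const_mul, integral_const_mul,
    integral_W]
  have b5 : 1 / (2 * η) * ∫ ω, W U θ ω * (∑ i ∈ G, c i * sg (ω i) - μ) ^ 2 ∂coins ι ≤
      1 / (2 * η) * η ^ 2 := mul_le_mul_of_nonneg_left v (by positivity)
  have b6 : 1 / (2 * η) * η ^ 2 = η / 2 := by field_simp
  linarith

theorem integral_W_cyl (F G : Finset ι) {θ : ι → ℝ} (h0 : ∀ i ∉ F, θ i = 0) (t : ι → Set Bool) :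
    ∫ ω in (G : Set ι).pi t, W F θ ω ∂coins ι =
      ∏ i ∈ G, ((t i).indicator 1 true * (1 + θ i) + (t i).indicator 1 false * (1 - θ i)) / 2 := by
  have hm : MeasurableSet ((G : Set ι).pi t) :=
    MeasurableSet.pi G.countable_toSet fun i _ => (t i).toFinite.measurableSet
  rw [← integral_indicator hm, W_ext h0 (Finset.subset_union_left (s₂ := G))]
  let u : ι → Bool → ℝ := fun l b => (if l ∈ G then (t l).indicator 1 b else 1) * (1 + θ l * sg b)
  have e : ∀ ω : ι → Bool, ((G : Set ι).pi t).indicator (W (F ∪ G) θ) ω =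
      ∏ l ∈ F ∪ G, u l (ω l) := by
    intro ω
    by_cases h : ω ∈ (G : Set ι).pi t
    · rw [indicator_of_mem h]
      refine Finset.prod_congr rfl fun l _ => ?_
      by_cases k : l ∈ G
      · simp [u, k, indicator_of_mem (h l k)]
      · simp [u, k]
    · rw [indicator_of_notMem h]
      simp only [Set.mem_pi, Finset.mem_coe, not_forall] at h
      obtain ⟨l, k, hl⟩ := h
      exact (Finset.prod_eq_zero (Finset.mem_union_right F k)
        (by simp [u, k, indicator_of_notMem hl])).symm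
  simp only [e]
  rw [integral_coins, ← Finset.prod_subset (Finset.subset_union_right (s₁ := F))
    fun i _ hi => by simp [u, hi, sg]; ring]
  refine Finset.prod_congr rfl fun i hi => ?_
  simp only [u, hi, sg, if_true, Bool.false_eq_true, if_false]
  ring

/-- Biases that vanish in each coordinate give weakly null densities. -/
theorem W_null (F : ℕ → Finset ι) (θ : ℕ → ι → ℝ) (h0 : ∀ n, ∀ i ∉ F n, θ n i = 0) {C : ℝ}
    (hC : ∀ n, ∫ ω, (W (F n) (θ n) ω - 1) ^ 2 ∂coins ι ≤ C)
    (hl : ∀ i, Tendsto (fun n => θ n i) atTop (𝓝 0)) :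
    ∀ E, MeasurableSet E →
      Tendsto (fun n => ∫ ω in E, (W (F n) (θ n) ω - 1) ∂coins ι) atTop (𝓝 0) := by
  have d : ∀ n, Dep (F n) (W (F n) (θ n)) := fun n => dep_W _ _
  refine null_all (f := fun n ω => W (F n) (θ n) ω - 1)
    (fun n => (d n).int.sub (integrable_const _))
    (fun n => ((d n).op (d n) fun a _ => (a - 1) ^ 2).int) hC generateFrom_squareCylinders.symm
    (isPiSystem_squareCylinders (fun _ => MeasurableSpace.isPiSystem_measurableSet)
      fun _ => mem_setOf_eq ▸ MeasurableSet.univ) ?_ ?_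
  · refine tendsto_const_nhds.congr fun n => ?_
    rw [integral_sub (d n).int (integrable_const _), integral_W]
    simp
  · rintro E ⟨G, t, -, rfl⟩
    have e0 := integral_W_cyl (∅ : Finset ι) G (θ := fun _ => 0) (fun _ _ => rfl) t
    have t1 : Tendsto (fun n => ∏ i ∈ G, ((t i).indicator 1 true * (1 + θ n i) +
        (t i).indicator 1 false * (1 - θ n i)) / 2) atTop
        (𝓝 (∏ i ∈ G, ((t i).indicator 1 true * (1 + 0) +
          (t i).indicator 1 false * (1 - 0)) / 2 : ℝ)) :=
      tendsto_finsetProd G fun i _ =>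
        ((((hl i).const_add 1).const_mul _).add (((hl i).const_sub 1).const_mul _)).div_const 2
    have t2 := t1.sub_const (∏ i ∈ G, ((t i).indicator 1 true * (1 + 0) +
      (t i).indicator 1 false * (1 - 0)) / 2 : ℝ)
    rw [sub_self] at t2
    refine t2.congr fun n => ?_
    rw [integral_sub (d n).int.integrableOn (integrable_const _), integral_W_cyl _ G (h0 n), ← e0]
    simp [W]

end Pool.Agent.Lib.MP_c0175c_an.Ch
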