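import Pool.Agent.Lib.MP_c0175c_an.Blocks

set_option autoImplicit false

open MeasureTheory Set Filter Topology

namespace Pool.Agent.Lib.MP_c0175c_an.Ch

/-- The space of real null sequences. -/
abbrev C0 := ZeroAtInftyContinuousMap ℕ ℝ

/-- A null sequence as an element of the space. -/
noncomputable def mk0 (a : ℕ → ℝ) (h : Tendsto a atTop (𝓝 0)) : C0 where
  toFun := a
  continuous_toFun := continuous_of_discreteTopology
  zero_at_infty' := by
    rw [cocompact_eq_cofinite, Nat.cofinite_eq_atTop]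
    exact h

theorem mk0_apply (a : ℕ → ℝ) (h : Tendsto a atTop (𝓝 0)) (n : ℕ) : mk0 a h n = a n := rfl

theorem norm_le0 (x : C0) {c : ℝ} (hc : 0 ≤ c) (h : ∀ n, |x n| ≤ c) : ‖x‖ ≤ c := by
  rw [← ZeroAtInftyContinuousMap.norm_toBCF_eq_norm, BoundedContinuousFunction.norm_le hc]
  exact h

theorem tends0 (x : C0) : Tendsto (fun n => x n) atTop (𝓝 0) := by
  have h := x.zero_at_infty'
  rw [cocompact_eq_cofinite, Nat.cofinite_eq_atTop] at h
  exact h

variable {Ω : Type*} [MeasurableSpace Ω] {Q : Measure Ω} [IsFiniteMeasure Q]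

theorem small_set {f : Ω → ℝ} (h1 : Integrable f Q) (h2 : Integrable (fun x => f x ^ 2) Q)
    {C δ : ℝ} (hC : ∫ x, f x ^ 2 ∂Q ≤ C) (hδ : 0 < δ) (E : Set Ω) :
    |∫ x in E, f x ∂Q| ≤ (δ * C + Q.real E / δ) / 2 := by
  have a1 : |∫ x in E, f x ∂Q| ≤ ∫ x in E, |f x| ∂Q := abs_integral_le_integral_abs
  have a2 : ∫ x in E, |f x| ∂Q ≤ ∫ x in E, (δ / 2 * f x ^ 2 + 1 / (2 * δ)) ∂Q := by
    refine integral_mono h1.abs.integrableOn
      (((h2.const_mul _).add (integrable_const _)).integrableOn) fun x => ?_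
    have b1 : 0 ≤ (δ * |f x| - 1) ^ 2 := sq_nonneg _
    have b2 : |f x| ^ 2 = f x ^ 2 := sq_abs _
    have b3 : δ / 2 * f x ^ 2 + 1 / (2 * δ) - |f x| = (δ * |f x| - 1) ^ 2 / (2 * δ) := by
      rw [← b2]
      field_simp
      ring
    have b4 : 0 ≤ (δ * |f x| - 1) ^ 2 / (2 * δ) := by positivity
    show |f x| ≤ δ / 2 * f x ^ 2 + 1 / (2 * δ)
    linarith
  rw [integral_add (h2.const_mul _).integrableOn (integrable_const _), integral_const_mul,
    setIntegral_const, smul_eq_mul] at a2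
  have a3 : ∫ x in E, f x ^ 2 ∂Q ≤ ∫ x, f x ^ 2 ∂Q :=
    setIntegral_le_integral h2 (Eventually.of_forall fun x => sq_nonneg _)
  have a4 : δ / 2 * ∫ x in E, f x ^ 2 ∂Q ≤ δ / 2 * C :=
    mul_le_mul_of_nonneg_left (a3.trans hC) (by positivity)
  have a5 : Q.real E * (1 / (2 * δ)) = Q.real E / δ / 2 := by field_simp
  linarith

omit [IsFiniteMeasure Q] in
theorem rest_eq {E : ℕ → Set Ω} (hm : ∀ i, MeasurableSet (E i))
    (hd : Pairwise (Function.onFun Disjoint E)) {g : Ω → ℝ} (hg : Integrable g Q) (s : Finset ℕ) :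
    ∫ x in ⋃ i, E i, g x ∂Q - ∑ i ∈ s, ∫ x in E i, g x ∂Q =
      ∫ x in (⋃ i, E i) \ ⋃ i ∈ s, E i, g x ∂Q := by
  rw [← integral_biUnion_finset s (fun i _ => hm i) (fun i _ j _ hij => hd hij)
    (fun i _ => hg.integrableOn),
    setIntegral_diff (Finset.measurableSet_biUnion s fun i _ => hm i) hg.integrableOn
      (iUnion₂_subset fun i _ => subset_iUnion E i)]

theorem tail_small {f : ℕ → Ω → ℝ} (h1 : ∀ n, Integrable (f n) Q)
    (h2 : ∀ n, Integrable (fun x => f n x ^ 2) Q) {C : ℝ} (hC : ∀ n, ∫ x, f n x ^ 2 ∂Q ≤ C)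
    {E : ℕ → Set Ω} (hm : ∀ i, MeasurableSet (E i)) (hd : Pairwise (Function.onFun Disjoint E))
    {ε : ℝ} (hε : 0 < ε) :
    ∀ᶠ s : Finset ℕ in atTop, ∀ n,
      |∫ x in ⋃ i, E i, f n x ∂Q - ∑ i ∈ s, ∫ x in E i, f n x ∂Q| ≤ ε := by
  have hC0 : 0 ≤ C := (integral_nonneg fun x => sq_nonneg _).trans (hC 0)
  have t1 : HasSum (fun i => ∫ _x in E i, (1 : ℝ) ∂Q) (∫ _x in ⋃ i, E i, (1 : ℝ) ∂Q) :=
    hasSum_integral_iUnion hm hd (integrable_const _).integrableOn
  have t2 : Tendsto (fun s : Finset ℕ => Q.real ((⋃ i, E i) \ ⋃ i ∈ s, E i)) atTop (𝓝 0) := by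
    have t3 := (tendsto_const_nhds (x := ∫ _x in ⋃ i, E i, (1 : ℝ) ∂Q)).sub t1
    rw [sub_self] at t3
    refine t3.congr fun s => ?_
    rw [rest_eq hm hd (integrable_const _), setIntegral_const, smul_eq_mul, mul_one]
  set δ := ε / (C + 1) with hδ
  have hδ0 : 0 < δ := by positivity
  filter_upwards [(tendsto_order.1 t2).2 (ε * δ) (by positivity)] with s hs n
  rw [rest_eq hm hd (h1 n)]
  refine (small_set (h1 n) (h2 n) (hC n) hδ0 _).trans ?_
  have a1 : δ * C ≤ ε := by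
    rw [hδ, div_mul_eq_mul_div, div_le_iff₀ (by positivity)]
    nlinarith
  have a2 : Q.real ((⋃ i, E i) \ ⋃ i ∈ s, E i) / δ ≤ ε := by
    rw [div_le_iff₀ hδ0]
    exact hs.le
  linarith

/-- Convergence on a generating system of sets passes to all measurable sets. -/
theorem null_all {f : ℕ → Ω → ℝ} (h1 : ∀ n, Integrable (f n) Q)
    (h2 : ∀ n, Integrable (fun x => f n x ^ 2) Q) {C : ℝ} (hC : ∀ n, ∫ x, f n x ^ 2 ∂Q ≤ C)
    {S : Set (Set Ω)} (hgen : ‹MeasurableSpace Ω› = MeasurableSpace.generateFrom S)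
    (hpi : IsPiSystem S) (hu : Tendsto (fun n => ∫ x, f n x ∂Q) atTop (𝓝 0))
    (hS : ∀ E ∈ S, Tendsto (fun n => ∫ x in E, f n x ∂Q) atTop (𝓝 0)) :
    ∀ E, MeasurableSet E → Tendsto (fun n => ∫ x in E, f n x ∂Q) atTop (𝓝 0) := by
  refine MeasurableSpace.induction_on_inter
    (C := fun E _ => Tendsto (fun n => ∫ x in E, f n x ∂Q) atTop (𝓝 0)) hgen hpi ?_ hS ?_ ?_
  · simp
  · intro t ht h
    have := hu.sub h
    rw [sub_zero] at this
    refine this.congr fun n => ?_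
    rw [← integral_add_compl ht (h1 n)]
    ring
  · intro E hd hm h
    rw [Metric.tendsto_nhds]
    intro ε hε
    obtain ⟨s, hs⟩ := (tail_small h1 h2 hC hm hd (ε := ε / 2) (by positivity)).exists
    have t1 : Tendsto (fun n => ∑ i ∈ s, ∫ x in E i, f n x ∂Q) atTop (𝓝 0) := by
      have := tendsto_finset_sum s fun i _ => h i
      simpa using this
    filter_upwards [Metric.tendsto_nhds.1 t1 (ε / 2) (by positivity)] with n hn
    rw [Real.dist_eq, sub_zero] at hn ⊢
    have a1 := abs_le.1 (hs n)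
    have a2 := abs_lt.1 hn
    rw [abs_lt]
    constructor <;> linarith [a1.1, a1.2, a2.1, a2.2]

/-- The vector measure of a weakly null sequence that is bounded in square mean. -/
theorem exists_vm {f : ℕ → Ω → ℝ} (h1 : ∀ n, Integrable (f n) Q)
    (h2 : ∀ n, Integrable (fun x => f n x ^ 2) Q) {C : ℝ} (hC : ∀ n, ∫ x, f n x ^ 2 ∂Q ≤ C)
    (h0 : ∀ E, MeasurableSet E → Tendsto (fun n => ∫ x in E, f n x ∂Q) atTop (𝓝 0)) :
    ∃ ν : VectorMeasure Ω C0, ∀ E, MeasurableSet E → ∀ n, ν E n = ∫ x in E, f n x ∂Q := by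
  classical
  refine ⟨⟨fun E => if h : MeasurableSet E then mk0 _ (h0 E h) else 0, ?_, ?_, ?_⟩, ?_⟩
  · rw [dif_pos MeasurableSet.empty]
    ext n
    simp [mk0_apply]
  · intro E hE
    rw [dif_neg hE]
  · intro E hm hd
    rw [dif_pos (MeasurableSet.iUnion hm)]
    simp only [hm, dif_pos]
    rw [HasSum, SummationFilter.unconditional_filter, Metric.tendsto_nhds]
    intro ε hε
    filter_upwards [tail_small h1 h2 hC hm hd (ε := ε / 2) (by positivity)] with s hs
    rw [dist_comm, dist_eq_norm]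
    refine lt_of_le_of_lt (norm_le0 _ (c := ε / 2) (by positivity) fun n => ?_) (by linarith)
    have e : (∑ i ∈ s, mk0 _ (h0 (E i) (hm i))) n = ∑ i ∈ s, ∫ x in E i, f n x ∂Q :=
      map_sum (Blocks.ev n) _ s
    rw [ZeroAtInftyContinuousMap.sub_apply, e, mk0_apply]
    exact hs n
  · intro E hE n
    show (if h : MeasurableSet E then mk0 _ (h0 E h) else 0) n = _
    rw [dif_pos hE, mk0_apply]

/-- A summable family of vector measures lives on the disjoint union of the spaces. -/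
theorem exists_sum {α : Type*} [MeasurableSpace α] (ν : ℕ → VectorMeasure α C0) {c : ℕ → ℝ}
    (hc : Summable c) (hb : ∀ k E, ‖ν k E‖ ≤ c k) :
    ∃ μ : VectorMeasure (ℕ × α) C0, ∀ E : ℕ → Set α, (∀ k, MeasurableSet (E k)) →
      HasSum (fun k => ν k (E k)) (μ {p | p.2 ∈ E p.1}) := by
  classical
  have hs : ∀ E : ℕ → Set α, Summable fun k => ν k (E k) := fun E =>
    Summable.of_norm_bounded hc fun k => hb k _
  refine ⟨⟨fun A => if MeasurableSet A then ∑' k, ν k (Prod.mk k ⁻¹' A) else 0, ?_, ?_, ?_⟩, ?_⟩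
  · simp
  · intro A hA
    rw [if_neg hA]
  · intro A hm hd
    rw [if_pos (MeasurableSet.iUnion hm)]
    simp only [hm, if_true]
    have m1 : ∀ k i, MeasurableSet (Prod.mk k ⁻¹' A i) := fun k i => measurable_prodMk_left (hm i)
    have d1 : ∀ k, Pairwise (Function.onFun Disjoint fun i => Prod.mk k ⁻¹' A i) :=
      fun k i j hij => (hd hij).preimage _
    have e1 : ∀ s : Finset ℕ, ∑ i ∈ s, ∑' k, ν k (Prod.mk k ⁻¹' A i) =
        ∑' k, ∑ i ∈ s, ν k (Prod.mk k ⁻¹' A i) := fun s =>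
      (Summable.tsum_finsetSum fun i _ => hs fun k => Prod.mk k ⁻¹' A i).symm
    rw [HasSum, SummationFilter.unconditional_filter]
    simp only [e1]
    refine tendsto_tsum_of_dominated_convergence hc (fun k => ?_) (Eventually.of_forall fun s k => ?_)
    · have := (ν k).hasSum_of_disjoint_iUnion (m1 k) (d1 k)
      rw [← preimage_iUnion] at this
      exact this
    · rw [← VectorMeasure.of_biUnion_finset (fun i _ j _ hij => d1 k hij) fun i _ => m1 k i]
      exact hb k _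
  · intro E hE
    have hA : MeasurableSet {p : ℕ × α | p.2 ∈ E p.1} := by
      have : {p : ℕ × α | p.2 ∈ E p.1} = ⋃ k, ({k} : Set ℕ) ×ˢ E k := by
        ext p
        simp only [mem_setOf_eq, mem_iUnion, mem_prod, mem_singleton_iff]
        exact ⟨fun h => ⟨p.1, rfl, h⟩, fun ⟨k, a, b⟩ => a ▸ b⟩
      rw [this]
      exact MeasurableSet.iUnion fun k => (measurableSet_singleton k).prod (hE k)
    show HasSum _ (if MeasurableSet _ then _ else 0)
    rw [if_pos hA]
    exact (hs E).hasSum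

end Pool.Agent.Lib.MP_c0175c_an.Ch
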